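import Pool.Agent.Helper26.SQ.Stmts

/-!
From the recursion `FG j m v → FG (2 j) m v' → 4 g ≤ 17 v + 3 → FG (4 j) m (3 v' + g)` to the lower
bound `w ^ α / ρ` with `ρ = (3 + √26) / 2` and `α = log₂ ρ > 2.0177`.
-/

set_option autoImplicit false

namespace Pool.Agent.Helper28.SQ

open Pool.Agent.Helper3.DW Pool.Agent.Helper26.SQ

/-- T5: the recursion. -/
def ST_rec : Prop := ∀ (j m v v' g : ℕ), FG j m v → FG (2 * j) m v' → 4 * g ≤ 17 * v + 3 →
  FG (4 * j) m (3 * v' + g)

theorem st_rec (hA : ST_lemA) (hT : ST_top) (hV : ST_vlem) : ST_rec := by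
  intro j m v v' g h1 h2 hg
  have h3 := hV (2 * j) m v' g h2 fun M => by
    have h4 := hT (2 * j) j m (11 * v) (2 * v) g le_rfl (hA j m v h1) (by omega) M
    exact h4.mono (by omega)
  have e : 2 * (2 * j) = 4 * j := by ring
  rwa [e] at h3

/-- The number of colours forced in width `2 ^ i`. -/
def bb : ℕ → ℕ
  | 0 => 1
  | 1 => 5
  | (i + 2) => 3 * bb (i + 1) + (17 * bb i + 3) / 4

theorem fg_one : FG 1 1 1 := by
  refine Force.step [] ∅ ∅ ?_ fun A hA _ => Force.here _ ?_
  · refine ⟨?_, ?_, ?_, ?_⟩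
    · intro i j h
      simp [plt] at h
    · intro i h
      simp [plt] at h
    · intro i j k h
      simp [plt] at h
    · intro s hs _
      have : s ⊆ {0} := fun i hi => by
        have := hs i hi
        simp at this
        simpa using this
      exact (Finset.card_le_card this).trans (by simp)
  · have : A ⊆ cols [⟨∅, ∅, A⟩] := by
      intro c hc
      refine mem_cols.2 ⟨0, by simp, ?_⟩
      simpa [pcol] using hc
    exact hA ▸ Finset.card_le_card this

theorem fg_bb (hR : ST_rec) : ∀ i : ℕ, FG (2 ^ i) 1 (bb i)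
  | 0 => fg_one
  | 1 => by simpa [bb] using fg_five
  | (i + 2) => by
    have h1 := fg_bb hR i
    have h2 := fg_bb hR (i + 1)
    have e1 : 2 ^ (i + 1) = 2 * 2 ^ i := by ring
    have e2 : 2 ^ (i + 2) = 4 * 2 ^ i := by ring
    rw [e1] at h2
    rw [e2, bb]
    exact hR _ _ _ _ _ h1 h2 (by omega)

/-- The growth rate of the recursion. -/
noncomputable def rho : ℝ := (3 + Real.sqrt 26) / 2

theorem rho_sq : rho ^ 2 = 3 * rho + 17 / 4 := by
  have h : Real.sqrt 26 ^ 2 = 26 := Real.sq_sqrt (by norm_num)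
  unfold rho
  nlinarith [h]

theorem rho_gt : (4.0495 : ℝ) < rho := by
  have : (5.099 : ℝ) < Real.sqrt 26 := by
    rw [Real.lt_sqrt (by norm_num)]
    norm_num
  unfold rho
  linarith

theorem rho_lt : rho < 4.05 := by
  have : Real.sqrt 26 < 5.1 := by
    rw [Real.sqrt_lt' (by norm_num)]
    norm_num
  unfold rho
  linarith

theorem rho_pos : 0 < rho := by have := rho_gt; linarith

theorem rho_pow_le : ∀ i : ℕ, rho ^ i ≤ (bb i : ℝ)
  | 0 => by simp [bb]
  | 1 => by
    have := rho_lt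
    simp only [pow_one, bb]
    push_cast
    linarith
  | (i + 2) => by
    have h1 := rho_pow_le i
    have h2 := rho_pow_le (i + 1)
    have h3 : 17 * bb i ≤ 4 * ((17 * bb i + 3) / 4) := by omega
    have h4 : (17 * (bb i : ℝ)) ≤ 4 * (((17 * bb i + 3) / 4 : ℕ) : ℝ) := by exact_mod_cast h3
    have e : rho ^ (i + 2) = 3 * rho ^ (i + 1) + 17 / 4 * rho ^ i := by
      have : rho ^ (i + 2) = rho ^ i * rho ^ 2 := by ring
      rw [this, rho_sq]
      ring
    rw [e, bb]
    push_cast
    push_cast at h4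
    linarith

/-- The exponent. -/
noncomputable def alpha : ℝ := Real.logb 2 rho

theorem two_rpow_alpha : (2 : ℝ) ^ alpha = rho := by
  unfold alpha
  exact Real.rpow_logb (by norm_num) (by norm_num) rho_pos

theorem alpha_gt : (2.0177 : ℝ) < alpha := by
  have h1 : (569 / 282 : ℝ) < alpha := by
    unfold alpha
    rw [Real.lt_logb_iff_rpow_lt (by norm_num) rho_pos]
    have h2 : ((2 : ℝ) ^ (569 / 282 : ℝ)) ^ 282 = 2 ^ 569 := by
      rw [← Real.rpow_natCast, ← Real.rpow_mul (by norm_num), ← Real.rpow_natCast]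
      norm_num
    have h3 : (2 : ℝ) ^ 569 < rho ^ 282 := by
      have h4 : (4.0495 : ℝ) ^ 282 < rho ^ 282 :=
        pow_lt_pow_left₀ rho_gt (by norm_num) (by norm_num)
      have h5 : (2 : ℝ) ^ 569 < 4.0495 ^ 282 := by
        have e1 : (2 : ℝ) ^ 569 = ((2 : ℝ) ^ 189) ^ 3 * 4 := by
          rw [← pow_mul, show (569 : ℕ) = 189 * 3 + 2 by norm_num, pow_add]
          norm_num
        have e2 : (4.0495 : ℝ) ^ 282 = ((4.0495 : ℝ) ^ 94) ^ 3 := by
          rw [← pow_mul]
        rw [e1, e2]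
        norm_num
      exact h5.trans h4
    rw [← h2] at h3
    exact lt_of_pow_lt_pow_left₀ 282 rho_pos.le h3
  have h2 : (2.0177 : ℝ) < 569 / 282 := by norm_num
  exact h2.trans h1

theorem alpha_pos : 0 < alpha := by have := alpha_gt; linarith

/-- The bound for powers of two. -/
theorem pow_two_bound (hR : ST_rec) (i k : ℕ) (h : Suffices (2 ^ i) k) : bb i ≤ k :=
  le_of_suffices (fg_bb hR i) h

/-- The general bound. -/
theorem super_bound (hR : ST_rec) (w k : ℕ) (h : Suffices w k) :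
    (w : ℝ) ^ alpha ≤ rho * (k : ℝ) := by
  rcases Nat.eq_zero_or_pos w with rfl | hw
  · rw [Nat.cast_zero, Real.zero_rpow alpha_pos.ne']
    exact mul_nonneg rho_pos.le (Nat.cast_nonneg k)
  · have h1 : 2 ^ Nat.log 2 w ≤ w := Nat.pow_log_le_self 2 hw.ne'
    have h2 : w < 2 ^ (Nat.log 2 w + 1) := Nat.lt_pow_succ_log_self (by norm_num) w
    set i := Nat.log 2 w
    have h3 : bb i ≤ k := le_of_suffices ((fg_bb hR i).mono h1 le_rfl) h
    have h3' : (bb i : ℝ) ≤ (k : ℝ) := by exact_mod_cast h3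
    have h4 : (w : ℝ) ^ alpha ≤ ((2 : ℝ) ^ (i + 1)) ^ alpha := by
      refine Real.rpow_le_rpow (Nat.cast_nonneg w) ?_ alpha_pos.le
      exact_mod_cast h2.le
    have h5 : ((2 : ℝ) ^ (i + 1)) ^ alpha = rho ^ (i + 1) := by
      rw [← Real.rpow_natCast, ← Real.rpow_mul (by norm_num), mul_comm, Real.rpow_mul (by norm_num),
        two_rpow_alpha, Real.rpow_natCast]
    have h6 := rho_pow_le i
    have h7 : rho ^ (i + 1) = rho * rho ^ i := by ring
    rw [h5, h7] at h4
    exact h4.trans (mul_le_mul_of_nonneg_left (h6.trans h3') rho_pos.le)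

end Pool.Agent.Helper28.SQ
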